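import Pool.Agent.Lib.MP_696deb_nt.Q4.Link
import Pool.Agent.Lib.MP_696deb_nt.QP.Par

/-! Corank zero for the quartic twists of even parity. -/

set_option autoImplicit false

open scoped Classical

namespace Pool.Agent.Lib.MP_696deb_nt.QT

open Pool.Agent.Lib.MP_696deb_nt.B2 (Gam Plc Dec cc plc_conj mem_Dec_smul)
open Pool.Agent.Lib.MP_696deb_nt.B2.Stmt
open Pool.Agent.B6 Q4 QP

theorem link {D : ℤ} (hD : D ≠ 0) (k : ℕ) (ξ : Gam → AD D hD) (h : IsSel (EQ D) (2 ^ k) ξ) :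
    @hSel (cw D hD) 1 ξ := by
  let _ := cw D hD
  let t : Tw := ⟨q4 D, D, hD, q4_pow D⟩
  have h1 := link_sel t (k := k) (ξ := ξ) h
  have loc : ∀ v : ℕ, v = 0 ∨ v.Prime → ∃ S, ∀ g ∈ Sm.Gv v, ξ g = tw 1 g S - S := fun v hv => by
    obtain ⟨Q, hQ⟩ := h1.loc v hv
    obtain ⟨S, rfl⟩ := (linkPsi t.ne t.pw).surjective Q
    refine ⟨S, fun g hg => Eq.trans ?_ (congrArg (fun x : EE => x - (show EE from S)) (tw_one g S).symm)⟩
    exact (linkPsi t.ne t.pw).injective ((hQ g hg).trans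
      ((map_sub (linkPsi t.ne t.pw) _ _).trans
        (congrArg (· - _) (link_pm t.ne t.pw t.pw (g : Sm.Qb →+* Sm.Qb) S))).symm)
  have coc : ∀ g g' : Gam, ξ (g * g') = ξ g + tw 1 g (ξ g') := fun g g' =>
    (h.2.2.1 g g').trans (by rw [tw_one]; rfl)
  obtain ⟨S0, h0⟩ := loc 0 (.inl rfl)
  have a0 := h0 cc (Sm.Gv_zero ▸ Subgroup.mem_zpowers _)
  refine ⟨lc_of_locallyConstant h.1, coc, fun w => ?_, S0, a0⟩
  obtain ⟨S, hS⟩ := loc w.p (.inr w.prime)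
  obtain ⟨g, hg⟩ := plc_conj (w := Sm.pl w.p) (v := w) (Sm.pl_p w.prime)
  refine ⟨tw 1 g S - ξ g, fun c hc => ?_⟩
  rw [← hg, mem_Dec_smul, ← Sm.Gv_prime w.prime] at hc
  have h2 := coc c g
  have h3 := coc g (g⁻¹ * c * g)
  rw [← mul_assoc, ← mul_assoc, mul_inv_cancel, one_mul, h2, hS _ hc] at h3
  have h4 : tw 1 g (tw 1 (g⁻¹ * c * g) S) = tw 1 c (tw 1 g S) := by
    rw [← lk_tw_mul, ← lk_tw_mul, ← mul_assoc, ← mul_assoc, mul_inv_cancel, one_mul]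
  simp only [← lkT_apply, map_sub] at h3 h4 ⊢
  rw [eq_sub_of_add_eq h3, h4]
  abel

theorem zero {D : ℤ} (hD : Squarefree D) (h : CorankLE (EQ D) 1) (hw : Wp D) :
    CorankLE (EQ D) 0 := par_zero hD h hw (link hD.ne_zero)

end Pool.Agent.Lib.MP_696deb_nt.QT
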